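import Pool.Agent.U337.EM.Stm

set_option autoImplicit false
set_option linter.unusedSectionVars false

/-!
# Project EM, package G: the main step

The solutions `(lam, b)`, `b : L → M[t]`, of the deformed equations form a module with connection over `F[t]`
(`PP`, `TT`, `nP`).  `sol_one`: a solution with a given value at `t = 1` (from S_O).  `sol_zero`: a solution which
is invertible at `t = 0` (from S_DT).  `t_G`: the result.
-/

namespace Pool.Agent.U83.EM.G

open MvPolynomial Pool.Agent.U337.EM

section mod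

variable {F : Type} [Field F] {S : Type} [CommRing S] [Algebra F S] {M : Type} [AddCommGroup M]
  [Module F M] [Module S M] [IsScalarTower F S M]

/-- `F[t]` acts on `M[t]`. -/
noncomputable instance instFt : Module (Polynomial F) (PolynomialModule S M) :=
  Module.compHom _ (Polynomial.mapRingHom (algebraMap F S))

theorem ft_def (q : Polynomial F) (n : PolynomialModule S M) :
    q • n = (q.map (algebraMap F S)) • n := rfl

theorem fC (c : F) (n : PolynomialModule S M) : (Polynomial.C c : Polynomial F) • n = c • n := by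
  rw [ft_def, Polynomial.map_C, ← Polynomial.algebraMap_eq, ← IsScalarTower.algebraMap_apply,
    algebraMap_smul]

/-- evaluation at `c` -/
noncomputable abbrev ev (c : F) : PolynomialModule S M →ₗ[S] M :=
  PolynomialModule.eval (algebraMap F S c)

theorem ev_ft (c : F) (q : Polynomial F) (n : PolynomialModule S M) :
    ev c (q • n) = (q.eval c) • ev c n := by
  rw [ft_def, ev, PolynomialModule.eval_smul, Polynomial.eval_map_algebraMap,
    Polynomial.aeval_algebraMap_apply, algebraMap_smul, Polynomial.coe_aeval_eq_eval]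

theorem ev_S (c : F) (q : Polynomial S) (n : PolynomialModule S M) :
    ev c (q • n) = (q.eval (algebraMap F S c)) • ev c n := PolynomialModule.eval_smul _ _ _

/-- `prt` and evaluation -/
theorem pr_ev (pr : M →ₗ[S] S) (prt : PolynomialModule S M →ₗ[Polynomial S] Polynomial S)
    (h : ∀ i m, prt (PolynomialModule.single S i m) = Polynomial.monomial i (pr m)) (c : F)
    (n : PolynomialModule S M) : pr (ev c n) = (prt n).eval (algebraMap F S c) := by
  induction n using PolynomialModule.induction_linear with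
  | zero => simp
  | add x y hx hy => rw [map_add, map_add, map_add, hx, hy, Polynomial.eval_add]
  | single i m =>
    rw [h, ev, PolynomialModule.eval_single, map_smul, Polynomial.eval_monomial, smul_eq_mul,
      mul_comm]

/-- the coefficients of `prt n` -/
theorem pr_coeff (pr : M →ₗ[S] S) (prt : PolynomialModule S M →ₗ[Polynomial S] Polynomial S)
    (h : ∀ i m, prt (PolynomialModule.single S i m) = Polynomial.monomial i (pr m))
    (n : PolynomialModule S M) (i : ℕ) : (prt n).coeff i = pr (n.coeff i) := by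
  classical
  induction n using PolynomialModule.induction_linear with
  | zero => simp
  | add x y hx hy =>
    rw [map_add, Polynomial.coeff_add, hx, hy, PolynomialModule.coeff_add, Finsupp.add_apply,
      map_add]
  | single j m =>
    rw [h, Polynomial.coeff_monomial, PolynomialModule.coeff_single, Finsupp.single_apply]
    split_ifs <;> simp

theorem sum_single (n : PolynomialModule S M) :
    n = ∑ i ∈ n.coeff.support, PolynomialModule.single S i (n.coeff i) := by
  apply PolynomialModule.coeff_injective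
  rw [PolynomialModule.coeff_sum]
  simp only [PolynomialModule.coeff_single]
  exact (Finsupp.sum_single n.coeff).symm

/-- the polynomial combinations of the `v j` -/
noncomputable abbrev io {r : ℕ} (v : Fin r → M) :
    (Fin r → Polynomial F) →ₗ[Polynomial F] PolynomialModule S M :=
  Fintype.linearCombination (Polynomial F) (fun j => PolynomialModule.single S 0 (v j))

theorem ev_io {r : ℕ} (v : Fin r → M) (q : Fin r → Polynomial F) (c : F) :
    ev c (io (S := S) v q) = ∑ j, (q j).eval c • v j := by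
  rw [Fintype.linearCombination_apply, map_sum]
  refine Finset.sum_congr rfl fun j _ => ?_
  rw [ev_ft, ev, PolynomialModule.eval_single, pow_zero, one_smul]

theorem prt_ft (prt : PolynomialModule S M →ₗ[Polynomial S] Polynomial S) (q : Polynomial F)
    (n : PolynomialModule S M) : prt (q • n) = q.map (algebraMap F S) * prt n := by
  rw [ft_def, map_smul, smul_eq_mul]

theorem prt_io (pr : M →ₗ[S] S) (prt : PolynomialModule S M →ₗ[Polynomial S] Polynomial S)
    (h : ∀ i m, prt (PolynomialModule.single S i m) = Polynomial.monomial i (pr m)) {r : ℕ}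
    (v : Fin r → M) (hv : ∀ j, pr (v j) = 0) (q : Fin r → Polynomial F) :
    prt (io v q) = 0 := by
  rw [Fintype.linearCombination_apply, map_sum]
  refine Finset.sum_eq_zero fun j _ => ?_
  rw [prt_ft, h, hv, map_zero, mul_zero]

theorem single_io {r : ℕ} (v : Fin r → M) (i : ℕ) (c : Fin r → F) :
    PolynomialModule.single S i (∑ j, c j • v j) =
      io v (fun j => Polynomial.monomial i (c j)) := by
  rw [Fintype.linearCombination_apply]
  change PolynomialModule.lsingle S i _ = _
  rw [map_sum]
  refine Finset.sum_congr rfl fun j _ => ?_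
  rw [ft_def, Polynomial.map_monomial, PolynomialModule.monomial_smul_single, add_zero,
    algebraMap_smul]
  rfl

theorem ker_io (pr : M →ₗ[S] S) (prt : PolynomialModule S M →ₗ[Polynomial S] Polynomial S)
    (h : ∀ i m, prt (PolynomialModule.single S i m) = Polynomial.monomial i (pr m)) {r : ℕ}
    (v : Fin r → M) (hv : ∀ m, pr m = 0 → ∃ c : Fin r → F, m = ∑ j, c j • v j)
    (n : PolynomialModule S M) (hn : prt n = 0) : n ∈ LinearMap.range (io (F := F) (S := S) v) := by
  rw [sum_single n]
  refine Submodule.sum_mem _ fun i _ => ?_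
  have h1 : pr (n.coeff i) = 0 := by
    rw [← pr_coeff pr prt h, hn, Polynomial.coeff_zero]
  obtain ⟨c, hc⟩ := hv _ h1
  rw [hc, single_io]
  exact ⟨_, rfl⟩

end mod

section conn

variable {F : Type} [Field F] {d : ℕ}

/-- the derivation with the coefficients `Y a` -/
noncomputable def dl (Y : ℕ → Fin d → Sy F d) (a : ℕ) (s : Sy F d) : Sy F d :=
  ∑ k, Y a k * pderiv k s

noncomputable def dd (Y : ℕ → Fin d → Sy F d) (a : ℕ) : Derivation F (Sy F d) (Sy F d) :=
  ∑ k, Y a k • pderiv k

theorem dd_apply (Y : ℕ → Fin d → Sy F d) (a : ℕ) (s : Sy F d) : dd Y a s = dl Y a s := by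
  have h := congrFun (map_sum (Derivation.coeFnAddMonoidHom (R := F) (A := Sy F d) (M := Sy F d))
    (fun k => Y a k • pderiv k) Finset.univ) s
  rw [Finset.sum_apply] at h
  exact h

theorem dl_zero (Y : ℕ → Fin d → Sy F d) (a : ℕ) : dl Y a 0 = 0 := by
  simp [dl]

variable {K : ℕ} {Y : ℕ → Fin d → Sy F d}
  (nS : Polynomial (Sy F d) →+ Polynomial (Sy F d))
  (p3 : ∀ q q' : Polynomial (Sy F d), nS (q * q') = nS q * q' + q * nS q')
  (p5 : nS Polynomial.X = 1)
  (p6 : ∀ s : Sy F d, nS (Polynomial.C s) =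
    - ∑ j : Fin K, Polynomial.C (dl Y j s) * Polynomial.X ^ (j : ℕ))

include p3 p5 in
theorem nS_pow (n : ℕ) : nS (Polynomial.X ^ n) = Polynomial.derivative (Polynomial.X ^ n) := by
  induction n with
  | zero =>
    have h := p3 1 1
    rw [mul_one, mul_one, one_mul] at h
    have h1 : nS 1 = 0 := by simpa using h
    rw [pow_zero, h1, Polynomial.derivative_one]
  | succ n ih =>
    rw [pow_succ, p3, ih, p5, Polynomial.derivative_mul, Polynomial.derivative_X]

include p3 p5 p6 in
theorem nS_F (q : Polynomial F) : nS (q.map (algebraMap F (Sy F d))) =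
    (Polynomial.derivative q).map (algebraMap F (Sy F d)) := by
  induction q using Polynomial.induction_on' with
  | add a b ha hb => rw [Polynomial.map_add, map_add, ha, hb, map_add, Polynomial.map_add]
  | monomial n c =>
    rw [Polynomial.map_monomial, ← Polynomial.C_mul_X_pow_eq_monomial, p3, nS_pow nS p3 p5, p6]
    have h1 : ∀ j : Fin K, dl Y j (algebraMap F (Sy F d) c) = 0 := by
      intro j
      rw [← dd_apply, Derivation.map_algebraMap]
    simp only [h1, map_zero, zero_mul, Finset.sum_const_zero, neg_zero, zero_add]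
    rw [← Polynomial.derivative_map, Polynomial.map_monomial,
      ← Polynomial.C_mul_X_pow_eq_monomial, Polynomial.derivative_mul, Polynomial.derivative_C,
      zero_mul, zero_add]

include p3 p5 p6 in
theorem nS_coeff (hY : ∀ j, K ≤ j → Y j = 0) (q : Polynomial (Sy F d)) (m : ℕ) :
    (nS q).coeff m = q.coeff (m + 1) * (m + 1) -
      ∑ a ∈ Finset.range (m + 1), dl Y a (q.coeff (m - a)) := by
  have hadd : ∀ a (s t : Sy F d), dl Y a (s + t) = dl Y a s + dl Y a t := by
    intro a s t
    rw [← dd_apply, map_add, dd_apply, dd_apply]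
  induction q using Polynomial.induction_on' with
  | add a b ha hb =>
    rw [map_add, Polynomial.coeff_add, ha, hb, Polynomial.coeff_add]
    simp only [Polynomial.coeff_add, hadd, Finset.sum_add_distrib]
    ring
  | monomial n s =>
    have e1 : nS (Polynomial.monomial n s) = Polynomial.derivative (Polynomial.monomial n s) -
        ∑ j ∈ Finset.range K, Polynomial.monomial (j + n) (dl Y j s) := by
      have e0 : ∑ j ∈ Finset.range K, Polynomial.monomial (j + n) (dl Y j s) =
          (∑ j : Fin K, Polynomial.C (dl Y j s) * Polynomial.X ^ (j : ℕ)) * Polynomial.X ^ n := by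
        rw [← Fin.sum_univ_eq_sum_range (fun j => Polynomial.monomial (j + n) (dl Y j s)) K,
          Finset.sum_mul]
        refine Finset.sum_congr rfl fun j _ => ?_
        rw [← Polynomial.C_mul_X_pow_eq_monomial, pow_add]
        ring
      rw [e0, ← Polynomial.C_mul_X_pow_eq_monomial, p3, nS_pow nS p3 p5, p6,
        Polynomial.derivative_mul, Polynomial.derivative_C]
      ring
    rw [e1, Polynomial.coeff_sub, Polynomial.coeff_derivative, Polynomial.finsetSum_coeff]
    congr 1
    simp only [Polynomial.coeff_monomial]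
    have e2 : ∑ x ∈ Finset.range K, (if x + n = m then dl Y x s else 0) =
        if n ≤ m then dl Y (m - n) s else 0 := by
      by_cases hnm : n ≤ m
      · rw [if_pos hnm]
        by_cases hK : m - n < K
        · rw [Finset.sum_eq_single (m - n)]
          · rw [if_pos (by omega)]
          · intro b _ hb
            rw [if_neg (by omega)]
          · intro h
            exact absurd (Finset.mem_range.2 hK) h
        · rw [Finset.sum_eq_zero]
          · rw [dl, hY _ (by omega)]
            simp
          · intro x hx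
            rw [Finset.mem_range] at hx
            rw [if_neg (by omega)]
      · rw [if_neg hnm]
        refine Finset.sum_eq_zero fun x _ => ?_
        rw [if_neg (by omega)]
    have e3 : ∑ x ∈ Finset.range (m + 1), dl Y x (if n = m - x then s else 0) =
        if n ≤ m then dl Y (m - n) s else 0 := by
      by_cases hnm : n ≤ m
      · rw [if_pos hnm, Finset.sum_eq_single (m - n)]
        · rw [if_pos (by omega)]
        · intro b hb hb'
          rw [Finset.mem_range] at hb
          rw [if_neg (by omega), dl_zero]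
        · intro h
          exact absurd (Finset.mem_range.2 (by omega)) h
      · rw [if_neg hnm]
        refine Finset.sum_eq_zero fun x hx => ?_
        rw [if_neg (by omega), dl_zero]
    rw [e2, e3]

/-- the family `f_t` -/
noncomputable def ft (f : Fin d → Sy F d) (i : Fin d) : Polynomial (Sy F d) :=
  ∑ j ∈ Finset.range (f i).totalDegree, Polynomial.monomial j (homogeneousComponent (j + 1) (f i))

theorem ft_coeff (f : Fin d → Sy F d) (i : Fin d) (j : ℕ) :
    (ft f i).coeff j = homogeneousComponent (j + 1) (f i) := by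
  unfold ft
  rw [Polynomial.finsetSum_coeff]
  simp only [Polynomial.coeff_monomial]
  by_cases h : j < (f i).totalDegree
  · rw [Finset.sum_eq_single j]
    · rw [if_pos rfl]
    · intro b _ hb
      rw [if_neg hb]
    · intro h'
      exact absurd (Finset.mem_range.2 h) h'
  · rw [homogeneousComponent_eq_zero _ _ (by omega)]
    refine Finset.sum_eq_zero fun x hx => ?_
    rw [Finset.mem_range] at hx
    rw [if_neg (by omega)]

/-- the algebra map `g_t` -/
noncomputable def gt (f : Fin d → Sy F d) : Sy F d →ₐ[F] Polynomial (Sy F d) := aeval (ft f)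

theorem gt_eval_one (f : Fin d → Sy F d) (hf : ∀ i, constantCoeff (f i) = 0) (s : Sy F d) :
    (gt f s).eval (algebraMap F (Sy F d) 1) = aeval f s := by
  rw [map_one]
  have h1 : ∀ i, (ft f i).eval 1 = f i := by
    intro i
    unfold ft
    rw [Polynomial.eval_finsetSum]
    simp only [Polynomial.eval_monomial, one_pow, mul_one]
    have h2 := sum_homogeneousComponent (f i)
    rw [Finset.sum_range_succ', homogeneousComponent_zero] at h2
    have h3 : coeff 0 (f i) = 0 := hf i
    rw [h3, C_0, add_zero] at h2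
    exact h2
  have h4 : ((Polynomial.aeval (R := Sy F d) (1 : Sy F d)).restrictScalars F).comp (gt f) =
      aeval f := by
    apply MvPolynomial.algHom_ext
    intro i
    rw [AlgHom.comp_apply, gt, aeval_X, aeval_X, AlgHom.restrictScalars_apply,
      Polynomial.coe_aeval_eq_eval]
    exact h1 i
  rw [← h4]
  rfl

theorem gt_eval_zero (f : Fin d → Sy F d) (s : Sy F d) :
    (gt f s).eval (algebraMap F (Sy F d) 0) = aeval (lin f) s := by
  rw [map_zero]
  have h4 : ((Polynomial.aeval (R := Sy F d) (0 : Sy F d)).restrictScalars F).comp (gt f) =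
      aeval (lin f) := by
    apply MvPolynomial.algHom_ext
    intro i
    rw [AlgHom.comp_apply, gt, aeval_X, aeval_X, AlgHom.restrictScalars_apply,
      Polynomial.coe_aeval_eq_eval, ← Polynomial.coeff_zero_eq_eval_zero, ft_coeff]
    rfl
  rw [← h4]
  rfl

include p3 p5 p6 in
theorem nS_gt [CharZero F] (hY : ∀ j, K ≤ j → Y j = 0) (f : Fin d → Sy F d)
    (hfY : ∀ (i : Fin d) (j : ℕ), ((j : F) + 1) • homogeneousComponent (j + 2) (f i) =
      ∑ a ∈ Finset.range (j + 1), ∑ k, Y a k * pderiv k (homogeneousComponent (j - a + 1) (f i)))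
    (s : Sy F d) : nS (gt f s) = 0 := by
  induction s using MvPolynomial.induction_on with
  | C c =>
    have h1 : gt f (C c) = (Polynomial.C c : Polynomial F).map (algebraMap F (Sy F d)) := by
      rw [gt, ← algebraMap_eq, AlgHom.commutes, Polynomial.map_C]
      rfl
    rw [h1, nS_F nS p3 p5 p6, Polynomial.derivative_C, Polynomial.map_zero]
  | add p q hp hq => rw [map_add, map_add, hp, hq, add_zero]
  | mul_X p i hp =>
    rw [map_mul, p3, hp, zero_mul, zero_add]
    have h1 : nS (gt f (X i)) = 0 := by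
      rw [gt, aeval_X]
      ext m : 1
      rw [nS_coeff nS p3 p5 p6 hY, ft_coeff, Polynomial.coeff_zero]
      simp only [ft_coeff]
      have h2 := hfY i m
      rw [Algebra.smul_def, map_add, map_natCast, map_one] at h2
      rw [sub_eq_zero]
      rw [show m + 1 + 1 = m + 2 from rfl, mul_comm]
      exact h2
    rw [h1, mul_zero]

end conn

section sol

variable {F : Type} [Field F] {L : Type} [LieRing L] [LieAlgebra F L] {d : ℕ}
  {M : Type} [AddCommGroup M] [Module F M] [Module (Sy F d) M] [IsScalarTower F (Sy F d) M]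

theorem lf_add (ab : L →ₗ[F] (Fin d → F)) (x y : L) : lf ab (x + y) = lf ab x + lf ab y := by
  simp [lf, add_mul, Finset.sum_add_distrib]

theorem lf_smul (ab : L →ₗ[F] (Fin d → F)) (c : F) (x : L) : lf ab (c • x) = c • lf ab x := by
  simp [lf, Finset.smul_sum, MvPolynomial.smul_eq_C_mul, mul_assoc]

theorem lf_zero (ab : L →ₗ[F] (Fin d → F)) (x : L) (hx : ab x = 0) : lf ab x = 0 := by
  simp [lf, hx]

theorem lf_inj (ab : L →ₗ[F] (Fin d → F)) (x : L) (hx : lf ab x = 0) : ab x = 0 := by
  classical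
  funext i
  have h := congrArg (coeff (Finsupp.single i 1)) hx
  rw [lf, coeff_sum, coeff_zero, Finset.sum_eq_single i] at h
  · simpa using h
  · intro j _ hj
    rw [coeff_C_mul, coeff_X, if_neg, mul_zero]
    intro h'
    exact hj (Finsupp.single_left_injective one_ne_zero h')
  · intro h'
    exact absurd (Finset.mem_univ i) h'

theorem gt_lf (f : Fin d → Sy F d) (ab : L →ₗ[F] (Fin d → F)) (x : L) :
    gt f (lf ab x) = ∑ i, ab x i • ft f i := by
  simp only [lf, ← MvPolynomial.smul_eq_C_mul, map_sum, map_smul, gt, aeval_X]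

theorem ft_comm (q : Polynomial F) (s : Polynomial (Sy F d)) (n : PolynomialModule (Sy F d) M) :
    q • s • n = s • q • n := by
  rw [ft_def, ft_def, smul_comm]

theorem ft_commF (q : Polynomial F) (c : F) (n : PolynomialModule (Sy F d) M) :
    q • c • n = c • q • n := by
  rw [← fC, ← fC, smul_smul, smul_smul, mul_comm]

/-- the defect of a solution -/
noncomputable def tt (f : Fin d → Sy F d) (ab : L →ₗ[F] (Fin d → F))
    (b : L → PolynomialModule (Sy F d) M) (x y : L) : PolynomialModule (Sy F d) M :=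
  b ⁅x, y⁆ - (gt f (lf ab y) • b x - gt f (lf ab x) • b y)

/-- the module `P` -/
noncomputable def PP (prt : PolynomialModule (Sy F d) M →ₗ[Polynomial (Sy F d)] Polynomial (Sy F d))
    (f : Fin d → Sy F d) (ab : L →ₗ[F] (Fin d → F)) :
    Submodule (Polynomial F) (Polynomial F × (L → PolynomialModule (Sy F d) M)) where
  carrier := {z | (∀ x y, z.2 (x + y) = z.2 x + z.2 y) ∧ (∀ (c : F) x, z.2 (c • x) = c • z.2 x) ∧
    ∀ x, prt (z.2 x) = z.1.map (algebraMap F (Sy F d)) * gt f (lf ab x)}
  zero_mem' := ⟨fun x y => by simp, fun c x => by simp, fun x => by simp⟩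
  add_mem' := by
    rintro z w ⟨h1, h2, h3⟩ ⟨k1, k2, k3⟩
    refine ⟨fun x y => ?_, fun c x => ?_, fun x => ?_⟩
    · simp only [Prod.snd_add, Pi.add_apply, h1, k1]
      abel
    · simp only [Prod.snd_add, Pi.add_apply, h2, k2, smul_add]
    · simp only [Prod.snd_add, Prod.fst_add, Pi.add_apply, map_add, h3, k3, Polynomial.map_add,
        add_mul]
  smul_mem' := by
    rintro q z ⟨h1, h2, h3⟩
    refine ⟨fun x y => ?_, fun c x => ?_, fun x => ?_⟩
    · simp only [Prod.smul_snd, Pi.smul_apply, h1, smul_add]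
    · simp only [Prod.smul_snd, Pi.smul_apply, h2, ft_commF]
    · simp only [Prod.smul_snd, Prod.smul_fst, Pi.smul_apply, prt_ft, h3, smul_eq_mul,
        Polynomial.map_mul, mul_assoc]

variable (prt : PolynomialModule (Sy F d) M →ₗ[Polynomial (Sy F d)] Polynomial (Sy F d))
  (f : Fin d → Sy F d) (ab : L →ₗ[F] (Fin d → F))

theorem tt_add (b b' : L → PolynomialModule (Sy F d) M) (x y : L) :
    tt f ab (b + b') x y = tt f ab b x y + tt f ab b' x y := by
  simp only [tt, Pi.add_apply, smul_add]
  abel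

theorem tt_smul (q : Polynomial F) (b : L → PolynomialModule (Sy F d) M) (x y : L) :
    tt f ab (q • b) x y = q • tt f ab b x y := by
  simp only [tt, Pi.smul_apply, smul_sub, ft_comm]

theorem tt_prt (hab : ∀ x y : L, lf ab ⁅x, y⁆ = 0)
    (z : Polynomial F × (L → PolynomialModule (Sy F d) M)) (hz : z ∈ PP prt f ab) (x y : L) :
    prt (tt f ab z.2 x y) = 0 := by
  obtain ⟨h1, h2, h3⟩ := hz
  simp only [tt, map_sub, map_smul, smul_eq_mul, h3, hab, map_zero, mul_zero]
  ring

/-- the bilinear form of the defect -/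
noncomputable def bil (z : Polynomial F × (L → PolynomialModule (Sy F d) M))
    (hz : z ∈ PP prt f ab) : L →ₗ[F] L →ₗ[F] PolynomialModule (Sy F d) M :=
  LinearMap.mk₂ F (fun x y => tt f ab z.2 x y)
    (fun x x' y => by
      simp only [tt, add_lie, hz.1, lf_add, map_add, smul_add, add_smul]
      abel)
    (fun c x y => by
      simp only [tt, smul_lie, hz.2.1, lf_smul, map_smul, smul_sub, smul_assoc, smul_comm c])
    (fun x y y' => by
      simp only [tt, lie_add, hz.1, lf_add, map_add, smul_add, add_smul]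
      abel)
    (fun c x y => by
      simp only [tt, lie_smul, hz.2.1, lf_smul, map_smul, smul_sub, smul_assoc, smul_comm c])

theorem tt_all {n : ℕ} (e : Module.Basis (Fin n) F L)
    (z : Polynomial F × (L → PolynomialModule (Sy F d) M)) (hz : z ∈ PP prt f ab)
    (h : ∀ a a', tt f ab z.2 (e a) (e a') = 0) (x y : L) : tt f ab z.2 x y = 0 := by
  have h1 : bil prt f ab z hz = 0 := e.ext fun a => e.ext fun a' => h a a'
  have h2 := LinearMap.congr_fun (LinearMap.congr_fun h1 x) y
  exact h2

/-- division by `t - c` -/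
theorem div_io {r : ℕ} (v : Fin r → M) (hv : ∀ c : Fin r → F, ∑ j, c j • v j = 0 → c = 0) (c : F)
    (n : PolynomialModule (Sy F d) M) (hn : n ∈ LinearMap.range (io (F := F) (S := Sy F d) v))
    (h0 : ev c n = 0) : ∃ n' ∈ LinearMap.range (io (F := F) (S := Sy F d) v),
      n = (Polynomial.X - Polynomial.C c) • n' := by
  obtain ⟨q, rfl⟩ := hn
  rw [ev_io] at h0
  have h1 := hv _ h0
  have h2 : ∀ j, ∃ w, q j = (Polynomial.X - Polynomial.C c) * w := by
    intro j
    have h3 : (q j).eval c = 0 := congrFun h1 j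
    exact Polynomial.dvd_iff_isRoot.2 h3
  choose w hw using h2
  refine ⟨io v w, ⟨w, rfl⟩, ?_⟩
  rw [← map_smul]
  congr 1
  funext j
  exact hw j

/-- the map `T` -/
noncomputable def TT {r : ℕ} (v : Fin r → M)
    (hker : ∀ n, prt n = 0 → n ∈ LinearMap.range (io (F := F) (S := Sy F d) v))
    (hab : ∀ x y : L, lf ab ⁅x, y⁆ = 0) {n : ℕ} (e : Fin n → L) :
    PP prt f ab →ₗ[Polynomial F]
      (Fin n → Fin n → LinearMap.range (io (F := F) (S := Sy F d) v)) where
  toFun z a a' := ⟨tt f ab z.1.2 (e a) (e a'), hker _ (tt_prt prt f ab hab z.1 z.2 _ _)⟩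
  map_add' z w := by
    funext a a'
    apply Subtype.ext
    exact tt_add f ab z.1.2 w.1.2 (e a) (e a')
  map_smul' q z := by
    funext a a'
    apply Subtype.ext
    exact tt_smul f ab q z.1.2 (e a) (e a')

section nabla

variable (nM : PolynomialModule (Sy F d) M →+ PolynomialModule (Sy F d) M)
  (nS : Polynomial (Sy F d) →+ Polynomial (Sy F d))
  (p2 : ∀ (q : Polynomial (Sy F d)) m, nM (q • m) = nS q • m + q • nM m)
  (p3 : ∀ q q' : Polynomial (Sy F d), nS (q * q') = nS q * q' + q * nS q')
  (p4 : ∀ m, prt (nM m) = nS (prt m))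
  (hF : ∀ q : Polynomial F, nS (q.map (algebraMap F (Sy F d))) =
    (Polynomial.derivative q).map (algebraMap F (Sy F d)))
  (hg : ∀ s, nS (gt f s) = 0)

include p2 hF in
theorem nM_ft (q : Polynomial F) (n : PolynomialModule (Sy F d) M) :
    nM (q • n) = Polynomial.derivative q • n + q • nM n := by
  rw [ft_def, p2, hF]
  rfl

include p2 hF in
theorem nM_F (c : F) (n : PolynomialModule (Sy F d) M) : nM (c • n) = c • nM n := by
  rw [← fC, ← fC, nM_ft nM nS p2 hF, Polynomial.derivative_C, zero_smul, zero_add]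

include p2 hg in
theorem tt_nM (b : L → PolynomialModule (Sy F d) M) (x y : L) :
    tt f ab (fun x => nM (b x)) x y = nM (tt f ab b x y) := by
  simp only [tt, map_sub, p2, hg, zero_smul, zero_add]

include p2 p3 p4 hF hg in
theorem nP_mem (z : Polynomial F × (L → PolynomialModule (Sy F d) M)) (hz : z ∈ PP prt f ab) :
    ((Polynomial.derivative z.1, fun x => nM (z.2 x)) :
      Polynomial F × (L → PolynomialModule (Sy F d) M)) ∈ PP prt f ab := by
  refine ⟨fun x y => ?_, fun c x => ?_, fun x => ?_⟩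
  · simp only [hz.1, map_add]
  · simp only [hz.2.1, nM_F nM nS p2 hF]
  · simp only [p4, hz.2.2, p3, hF, hg, mul_zero, add_zero]

/-- the connection on `P` -/
noncomputable def nP : PP prt f ab →+ PP prt f ab where
  toFun z := ⟨(Polynomial.derivative z.1.1, fun x => nM (z.1.2 x)),
    nP_mem prt f ab nM nS p2 p3 p4 hF hg z.1 z.2⟩
  map_zero' := by
    apply Subtype.ext
    simp only [ZeroMemClass.coe_zero, Prod.fst_zero, Prod.snd_zero, Pi.zero_apply, map_zero]
    rfl
  map_add' z w := by
    apply Subtype.ext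
    simp only [Submodule.coe_add, Prod.fst_add, Prod.snd_add, Pi.add_apply, map_add]
    rfl

/-- the connection on the kernel -/
noncomputable def nK {r : ℕ} (v : Fin r → M)
    (hker : ∀ n, prt n = 0 → n ∈ LinearMap.range (io (F := F) (S := Sy F d) v))
    (hker' : ∀ n ∈ LinearMap.range (io (F := F) (S := Sy F d) v), prt n = 0) :
    LinearMap.range (io (F := F) (S := Sy F d) v) →+
      LinearMap.range (io (F := F) (S := Sy F d) v) where
  toFun c := ⟨nM c.1, hker _ (by rw [p4, hker' _ c.2, map_zero])⟩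
  map_zero' := by
    apply Subtype.ext
    exact map_zero nM
  map_add' c c' := by
    apply Subtype.ext
    exact map_add nM c.1 c'.1

theorem ev_F (c a : F) (n : PolynomialModule (Sy F d) M) : ev c (a • n) = a • ev c n :=
  LinearMap.map_smul_of_tower _ _ _

theorem ev_single (c : F) (m : M) : ev c (PolynomialModule.single (Sy F d) 0 m) = m := by
  rw [ev, PolynomialModule.eval_single, pow_zero, one_smul]

theorem exists_ft (pr : M →ₗ[Sy F d] Sy F d)
    (p1 : ∀ i m, prt (PolynomialModule.single (Sy F d) i m) = Polynomial.monomial i (pr m))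
    (hX : ∀ i, ∃ m, pr m = X i) (i : Fin d) :
    ∃ m : PolynomialModule (Sy F d) M, prt m = ft f i := by
  have hsurj : ∀ s : Sy F d, ∃ m, pr m = s - C (coeff 0 s) := by
    intro s
    induction s using MvPolynomial.induction_on with
    | C a => exact ⟨0, by simp⟩
    | add p q hp hq =>
      obtain ⟨m, hm⟩ := hp
      obtain ⟨m', hm'⟩ := hq
      exact ⟨m + m', by rw [map_add, hm, hm', coeff_add, C_add]; ring⟩
    | mul_X p i hp =>
      obtain ⟨m, hm⟩ := hX i
      refine ⟨p • m, ?_⟩
      rw [map_smul, hm, smul_eq_mul, ← constantCoeff_eq, map_mul, constantCoeff_X, mul_zero, C_0,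
        sub_zero]
  have h1 : ∀ j, ∃ m, pr m = homogeneousComponent (j + 1) (f i) := by
    intro j
    obtain ⟨m, hm⟩ := hsurj (homogeneousComponent (j + 1) (f i))
    refine ⟨m, ?_⟩
    rw [hm, coeff_homogeneousComponent, if_neg, C_0, sub_zero]
    simp
  choose mm hmm using h1
  refine ⟨∑ j ∈ Finset.range (f i).totalDegree, PolynomialModule.single (Sy F d) j (mm j), ?_⟩
  rw [map_sum, ft]
  exact Finset.sum_congr rfl fun j _ => by rw [p1, hmm]

include p2 p3 p4 hF hg in
/-- a solution with the given value at `t = 1` -/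
theorem sol_one [CharZero F] [Module.Finite F L] (hO : S_O) (pr : M →ₗ[Sy F d] Sy F d)
    (p1 : ∀ i m, prt (PolynomialModule.single (Sy F d) i m) = Polynomial.monomial i (pr m))
    (hX : ∀ i, ∃ m, pr m = X i) (hf0 : ∀ i, constantCoeff (f i) = 0) {r : ℕ} (v : Fin r → M)
    (hv0 : ∀ j, pr (v j) = 0) (hv : ∀ m, pr m = 0 → ∃ c : Fin r → F, m = ∑ j, c j • v j)
    (hvi : ∀ c : Fin r → F, ∑ j, c j • v j = 0 → c = 0) (hab : ∀ x y : L, lf ab ⁅x, y⁆ = 0)
    (Θ : L →ₗ[F] M)
    (hΘ : ∀ x y, Θ ⁅x, y⁆ = aeval f (lf ab y) • Θ x - aeval f (lf ab x) • Θ y)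
    (hprΘ : ∀ x, pr (Θ x) = aeval f (lf ab x)) :
    ∃ z ∈ PP prt f ab, (∀ x y, tt f ab z.2 x y = 0) ∧ z.1.eval 1 = 1 ∧
      ∀ x, ev (1 : F) (z.2 x) = Θ x := by
  choose mi hmi using exists_ft prt f pr p1 hX
  set b : L → PolynomialModule (Sy F d) M := fun x => ∑ i, ab x i • mi i +
    PolynomialModule.single (Sy F d) 0 (Θ x - ∑ i, ab x i • ev (1 : F) (mi i)) with hb
  have hsub : ∀ m m' : M, PolynomialModule.single (Sy F d) 0 (m + m') =
      PolynomialModule.single (Sy F d) 0 m + PolynomialModule.single (Sy F d) 0 m' :=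
    fun m m' => map_add (PolynomialModule.lsingle (Sy F d) 0) m m'
  have hsm : ∀ (c : F) (m : M), PolynomialModule.single (Sy F d) 0 (c • m) =
      c • PolynomialModule.single (Sy F d) 0 m :=
    fun c m => LinearMap.map_smul_of_tower (PolynomialModule.lsingle (Sy F d) 0) c m
  have hbev : ∀ x, ev (1 : F) (b x) = Θ x := by
    intro x
    rw [hb]
    simp only
    rw [map_add, map_sum, ev_single]
    simp only [ev_F]
    abel
  have hev1 : ∀ n : PolynomialModule (Sy F d) M,
      pr (ev (1 : F) n) = (prt n).eval (algebraMap F (Sy F d) 1) := pr_ev pr prt p1 1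
  have hmem : (((1 : Polynomial F), b) :
      Polynomial F × (L → PolynomialModule (Sy F d) M)) ∈ PP prt f ab := by
    refine ⟨fun x y => ?_, fun c x => ?_, fun x => ?_⟩
    · simp only [hb, map_add, Pi.add_apply, add_smul, Finset.sum_add_distrib]
      rw [add_sub_add_comm, hsub]
      abel
    · simp only [hb, map_smul, Pi.smul_apply, smul_eq_mul, mul_smul, ← Finset.smul_sum, ← smul_sub,
        hsm, ← smul_add]
    · simp only [hb]
      rw [Polynomial.map_one, one_mul, map_add, map_sum, p1, gt_lf]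
      have h1 : ∑ i, prt (ab x i • mi i) = ∑ i, ab x i • ft f i :=
        Finset.sum_congr rfl fun i _ => by rw [LinearMap.map_smul_of_tower, hmi]
      have h2 : pr (Θ x - ∑ i, ab x i • ev (1 : F) (mi i)) = 0 := by
        have h3 := hprΘ x
        rw [← gt_eval_one f hf0, gt_lf] at h3
        rw [map_sub, h3, map_sum, Polynomial.eval_finsetSum, ← Finset.sum_sub_distrib]
        refine Finset.sum_eq_zero fun i _ => ?_
        rw [LinearMap.map_smul_of_tower, hev1, hmi, Polynomial.eval_smul, sub_self]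
      rw [h1, h2, map_zero, add_zero]
  have hker : ∀ n, prt n = 0 → n ∈ LinearMap.range (io (F := F) (S := Sy F d) v) :=
    fun n hn => ker_io pr prt p1 v hv n hn
  have hker' : ∀ n ∈ LinearMap.range (io (F := F) (S := Sy F d) v), prt n = 0 := by
    rintro _ ⟨q, rfl⟩
    exact prt_io pr prt p1 v hv0 q
  let e := Module.finBasis F L
  let T := TT prt f ab v hker hab e
  let nQ : (Fin (Module.finrank F L) → Fin (Module.finrank F L) → LinearMap.range (io (F := F) (S := Sy F d) v)) →+
      (Fin (Module.finrank F L) → Fin (Module.finrank F L) → LinearMap.range (io (F := F) (S := Sy F d) v)) :=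
    { toFun := fun c a a' => nK prt nM nS p4 v hker hker' (c a a')
      map_zero' := by
        funext a a'
        simp only [Pi.zero_apply, map_zero]
      map_add' := fun c c' => by
        funext a a'
        simp only [Pi.add_apply, map_add] }
  have hdiv : ∀ a a', ∃ n' ∈ LinearMap.range (io (F := F) (S := Sy F d) v),
      tt f ab b (e a) (e a') = (Polynomial.X - Polynomial.C (1 : F)) • n' := by
    intro a a'
    refine div_io v hvi 1 _ (hker _ (tt_prt prt f ab hab _ hmem _ _)) ?_
    simp only [tt, map_sub, ev_S, gt_eval_one f hf0, hbev, hΘ]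
    abel
  choose q hq1 hq2 using hdiv
  obtain ⟨p', hp'⟩ := hO F (PP prt f ab)
    (Fin (Module.finrank F L) → Fin (Module.finrank F L) → LinearMap.range (io (F := F) (S := Sy F d) v)) T
    (nP prt f ab nM nS p2 p3 p4 hF hg) nQ
    (fun a p => by
      apply Subtype.ext
      apply Prod.ext
      · change Polynomial.derivative (a * p.1.1) = Polynomial.derivative a * p.1.1 +
          a * Polynomial.derivative p.1.1
        rw [Polynomial.derivative_mul]
      · funext x
        exact nM_ft nM nS p2 hF a (p.1.2 x))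
    (fun a c => by
      funext i j
      apply Subtype.ext
      exact nM_ft nM nS p2 hF a (c i j).1)
    (fun p => by
      funext i j
      apply Subtype.ext
      exact tt_nM f ab nM nS p2 hg p.1.2 (e i) (e j))
    1 ⟨(1, b), hmem⟩ (fun a a' => ⟨q a a', hq1 a a'⟩)
    (by
      funext a a'
      apply Subtype.ext
      exact hq2 a a')
  set z : PP prt f ab := ⟨(1, b), hmem⟩ - (Polynomial.X - Polynomial.C (1 : F)) • p' with hz
  refine ⟨z.1, z.2, tt_all prt f ab e z.1 z.2 fun a a' => ?_, ?_, fun x => ?_⟩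
  · have h1 := congrFun (congrFun hp' a) a'
    exact congrArg Subtype.val h1
  · have h1 : z.1.1 = 1 - (Polynomial.X - Polynomial.C (1 : F)) * p'.1.1 := rfl
    rw [h1]
    simp
  · have h1 : z.1.2 x = b x - (Polynomial.X - Polynomial.C (1 : F)) • p'.1.2 x := rfl
    rw [h1, map_sub, ev_ft, hbev]
    simp

/-- the matrices of the solutions -/
noncomputable def BB {r : ℕ} (v : Fin r → M) (u : Fin r → L) :
    Submodule (Polynomial F) (Matrix (Fin (r + 1)) (Fin (r + 1)) (Polynomial F)) where
  carrier := {B | ∃ z ∈ PP prt f ab, (∀ x y, tt f ab z.2 x y = 0) ∧ B 0 0 = z.1 ∧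
    (∀ j : Fin r, B 0 j.succ = 0) ∧ (∀ i : Fin r, B i.succ 0 = 0) ∧
    ∀ j, io v (fun i => B i.succ j.succ) = z.2 (u j)}
  zero_mem' := by
    refine ⟨0, (PP prt f ab).zero_mem, fun x y => by simp [tt], rfl, fun _ => rfl, fun _ => rfl,
      fun j => ?_⟩
    exact map_zero (io v)
  add_mem' := by
    rintro B B' ⟨z, hz, h1, h2, h3, h4, h5⟩ ⟨z', hz', k1, k2, k3, k4, k5⟩
    refine ⟨z + z', (PP prt f ab).add_mem hz hz', fun x y => ?_, ?_, fun j => ?_, fun i => ?_,
      fun j => ?_⟩
    · rw [Prod.snd_add, tt_add, h1, k1, add_zero]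
    · rw [Matrix.add_apply, h2, k2, Prod.fst_add]
    · rw [Matrix.add_apply, h3, k3, add_zero]
    · rw [Matrix.add_apply, h4, k4, add_zero]
    · rw [Prod.snd_add, Pi.add_apply, ← h5, ← k5, ← map_add]
      rfl
  smul_mem' := by
    rintro q B ⟨z, hz, h1, h2, h3, h4, h5⟩
    refine ⟨q • z, (PP prt f ab).smul_mem q hz, fun x y => ?_, ?_, fun j => ?_, fun i => ?_,
      fun j => ?_⟩
    · rw [Prod.smul_snd, tt_smul, h1, smul_zero]
    · rw [Matrix.smul_apply, h2, Prod.smul_fst]
    · rw [Matrix.smul_apply, h3, smul_zero]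
    · rw [Matrix.smul_apply, h4, smul_zero]
    · rw [Prod.smul_snd, Pi.smul_apply, ← h5, ← map_smul]
      rfl

include p2 p3 p4 hF hg in
/-- a solution which is invertible at `t = 0` -/
theorem sol_zero [CharZero F] (hDT : S_DT) (pr : M →ₗ[Sy F d] Sy F d)
    (p1 : ∀ i m, prt (PolynomialModule.single (Sy F d) i m) = Polynomial.monomial i (pr m))
    {r : ℕ} (v : Fin r → M)
    (hv0 : ∀ j, pr (v j) = 0) (hv : ∀ m, pr m = 0 → ∃ c : Fin r → F, m = ∑ j, c j • v j)
    (hvi : ∀ c : Fin r → F, ∑ j, c j • v j = 0 → c = 0) (u : Fin r → L) (hu : ∀ j, ab (u j) = 0)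
    (z₁ : Polynomial F × (L → PolynomialModule (Sy F d) M)) (hz₁ : z₁ ∈ PP prt f ab)
    (ht₁ : ∀ x y, tt f ab z₁.2 x y = 0) (hl₁ : z₁.1.eval 1 = 1)
    (he₁ : ∀ j, ev (1 : F) (z₁.2 (u j)) = v j) :
    ∃ z ∈ PP prt f ab, (∀ x y, tt f ab z.2 x y = 0) ∧ z.1.eval 0 ≠ 0 ∧
      ∀ c : Fin r → F, ∑ j, c j • ev (0 : F) (z.2 (u j)) = 0 → c = 0 := by
  classical
  have hker : ∀ n, prt n = 0 → n ∈ LinearMap.range (io (F := F) (S := Sy F d) v) :=
    fun n hn => ker_io pr prt p1 v hv n hn
  -- the matrix of the connection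
  have hd : ∀ k, ∃ w, io (F := F) (S := Sy F d) v w =
      nM (PolynomialModule.single (Sy F d) 0 (v k)) := by
    intro k
    apply hker
    rw [p4, p1, hv0, map_zero, map_zero]
  choose dk hdk using hd
  have hnio : ∀ q : Fin r → Polynomial F, nM (io v q) =
      io v (fun i => Polynomial.derivative (q i) + ∑ k, q k * dk k i) := by
    intro q
    have e1 : (fun i => Polynomial.derivative (q i) + ∑ k, q k * dk k i) =
        (fun i => Polynomial.derivative (q i)) + ∑ k, q k • dk k := by
      funext i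
      simp [Finset.sum_apply]
    rw [e1, map_add, map_sum]
    simp only [map_smul, hdk]
    rw [Fintype.linearCombination_apply, Fintype.linearCombination_apply, map_sum,
      ← Finset.sum_add_distrib]
    exact Finset.sum_congr rfl fun k _ => nM_ft nM nS p2 hF _ _
  let 𝔻 : Matrix (Fin (r + 1)) (Fin (r + 1)) (Polynomial F) :=
    Matrix.of fun i k => Fin.cases 0 (fun i' => Fin.cases 0 (fun k' => - dk k' i') k) i
  have d0 : ∀ k, 𝔻 0 k = 0 := fun k => rfl
  have d1 : ∀ i : Fin r, 𝔻 i.succ 0 = 0 := fun i => rfl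
  have d2 : ∀ i k : Fin r, 𝔻 i.succ k.succ = - dk k i := fun i k => rfl
  have hcl : ∀ B ∈ BB prt f ab v u, B.map Polynomial.derivative - 𝔻 * B ∈ BB prt f ab v u := by
    rintro B ⟨z, hz, h1, h2, h3, h4, h5⟩
    refine ⟨(Polynomial.derivative z.1, fun x => nM (z.2 x)),
      nP_mem prt f ab nM nS p2 p3 p4 hF hg z hz, fun x y => ?_, ?_, fun j => ?_, fun i => ?_,
      fun j => ?_⟩
    · have := tt_nM f ab nM nS p2 hg z.2 x y
      rw [h1, map_zero] at this
      exact this
    · rw [Matrix.sub_apply, Matrix.map_apply, Matrix.mul_apply, h2]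
      simp [d0]
    · rw [Matrix.sub_apply, Matrix.map_apply, Matrix.mul_apply, h3]
      simp [d0]
    · rw [Matrix.sub_apply, Matrix.map_apply, Matrix.mul_apply, h4, Fin.sum_univ_succ, d1]
      simp [h4]
    · simp only
      rw [← h5, hnio]
      congr 1
      funext i
      rw [Matrix.sub_apply, Matrix.map_apply, Matrix.mul_apply, Fin.sum_univ_succ, d1]
      simp only [d2, zero_mul, zero_add, neg_mul, Finset.sum_neg_distrib, sub_neg_eq_add]
      congr 1
      exact Finset.sum_congr rfl fun k _ => mul_comm _ _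
  -- the first matrix
  have hw : ∀ j, ∃ w, io (F := F) (S := Sy F d) v w = z₁.2 (u j) := by
    intro j
    apply hker
    rw [hz₁.2.2, lf_zero ab _ (hu j), map_zero, mul_zero]
  choose w hw using hw
  let B₁ : Matrix (Fin (r + 1)) (Fin (r + 1)) (Polynomial F) :=
    Matrix.of fun i j => Fin.cases (Fin.cases z₁.1 (fun _ => 0) j)
      (fun i' => Fin.cases 0 (fun j' => w j' i') j) i
  have b0 : B₁ 0 0 = z₁.1 := rfl
  have b1 : ∀ j : Fin r, B₁ 0 j.succ = 0 := fun j => rfl
  have b2 : ∀ i : Fin r, B₁ i.succ 0 = 0 := fun i => rfl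
  have b3 : ∀ i j : Fin r, B₁ i.succ j.succ = w j i := fun i j => rfl
  have hB₁ : B₁ ∈ BB prt f ab v u := ⟨z₁, hz₁, ht₁, b0, b1, b2, fun j => hw j⟩
  have hdet₁ : B₁.det ≠ 0 := by
    intro h
    have h1 : (Polynomial.evalRingHom (1 : F)).mapMatrix B₁ = 1 := by
      have hwj : ∀ j i, (w j i).eval 1 = if i = j then 1 else 0 := by
        intro j i
        have h2 := he₁ j
        rw [← hw, ev_io] at h2
        have h3 : ∑ i, ((w j i).eval 1 - if i = j then 1 else 0) • v i = 0 := by
          simp only [sub_smul, Finset.sum_sub_distrib, h2, ite_smul, one_smul, zero_smul,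
            Finset.sum_ite_eq', Finset.mem_univ, if_true, sub_self]
        have h4 := congrFun (hvi _ h3) i
        exact sub_eq_zero.1 h4
      ext i j
      rw [RingHom.mapMatrix_apply, Matrix.map_apply]
      refine Fin.cases ?_ (fun i' => ?_) i <;> refine Fin.cases ?_ (fun j' => ?_) j
      · rw [b0, Matrix.one_apply_eq]
        exact hl₁
      · rw [b1, map_zero, Matrix.one_apply_ne (Fin.succ_ne_zero j').symm]
      · rw [b2, map_zero, Matrix.one_apply_ne (Fin.succ_ne_zero i')]
      · rw [b3, Matrix.one_apply]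
        simp only [Fin.succ_inj]
        exact hwj j' i'
    have h2 := RingHom.map_det (Polynomial.evalRingHom (1 : F)) B₁
    rw [h1, h, map_zero, Matrix.det_one] at h2
    exact zero_ne_one h2
  obtain ⟨B, ⟨z, hz, h1, h2, h3, h4, h5⟩, hB⟩ := hDT F (r + 1) (BB prt f ab v u) 𝔻 hcl B₁ hB₁
    hdet₁ 0
  set W : Matrix (Fin (r + 1)) (Fin (r + 1)) F := (Polynomial.evalRingHom (0 : F)).mapMatrix B
    with hW
  have hWdet : W.det ≠ 0 := by
    rw [hW, ← RingHom.map_det]
    exact hB
  have hWa : ∀ i j, W i j = (B i j).eval 0 := fun i j => rfl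
  refine ⟨z, hz, h1, fun h => hWdet ?_, fun c hc => ?_⟩
  · refine Matrix.det_eq_zero_of_column_eq_zero 0 fun i => ?_
    refine Fin.cases ?_ (fun i' => ?_) i
    · rw [hWa, h2, h]
    · rw [hWa, h4, Polynomial.eval_zero]
  · have h6 : ∀ i, ∑ j, W (Fin.succ i) (Fin.succ j) * c j = 0 := by
      have h7 : ∑ i, (∑ j, W (Fin.succ i) (Fin.succ j) * c j) • v i = 0 := by
        rw [← hc]
        simp only [← h5, ev_io, Finset.smul_sum, Finset.sum_smul, smul_smul]
        rw [Finset.sum_comm]
        refine Finset.sum_congr rfl fun j _ => Finset.sum_congr rfl fun i _ => ?_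
        rw [hWa, mul_comm]
      exact fun i => congrFun (hvi _ h7) i
    have h8 : W.mulVec (Fin.cons 0 c) = 0 := by
      funext i
      rw [Matrix.mulVec, dotProduct, Fin.sum_univ_succ]
      simp only [Fin.cons_zero, Fin.cons_succ, mul_zero, zero_add, Pi.zero_apply]
      refine Fin.cases ?_ (fun i' => ?_) i
      · refine Finset.sum_eq_zero fun j _ => ?_
        rw [hWa, h3, Polynomial.eval_zero, zero_mul]
      · exact h6 i'
    have h9 := Matrix.eq_zero_of_mulVec_eq_zero hWdet h8
    funext j
    exact congrFun h9 j.succ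

end nabla

end sol

theorem t_G : S_PM → S_O → S_DT → S_G := by
  intro hPM hO hDT F _ _ L _ _ _ d abL hab ML MH _ _ _ _ _ _ _ _ fL prH f f' Φ K Y hf0 hf' hΦ hprΦ
    hX hlift hYK hcoef
  choose D hD1 hD2 using hlift
  obtain ⟨nM, nS, prt, p1, p2, p3, p4, p5, p6, -⟩ := hPM F (Sy F d) MH prH K
    (fun j => dd Y j) (fun j => D j) (fun j s m => by rw [hD1, dd_apply]; rfl)
    (fun j m => by rw [hD2, dd_apply]; rfl)
  simp only [dd_apply] at p6
  have hF := nS_F nS p3 p5 p6
  have hg := nS_gt nS p3 p5 p6 hYK f hcoef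
  have hlf : ∀ x y : L, lf abL ⁅x, y⁆ = 0 := fun x y =>
    lf_zero abL _ ((hab.2 _).2 (Submodule.subset_span ⟨x, y, rfl⟩))
  let Θ₁ : L →ₗ[F] MH := Φ.toLinearMap ∘ₗ fL.io
  have hΘ₁ : ∀ x y, Θ₁ ⁅x, y⁆ = aeval f (lf abL y) • Θ₁ x - aeval f (lf abL x) • Θ₁ y := by
    intro x y
    change Φ (fL.io ⁅x, y⁆) = aeval f (lf abL y) • Φ (fL.io x) - aeval f (lf abL x) • Φ (fL.io y)
    rw [fL.h2, map_sub, hΦ, hΦ]
  have hpr₁ : ∀ x, prH (Θ₁ x) = aeval f (lf abL x) := by
    intro x
    change prH (Φ (fL.io x)) = _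
    rw [hprΦ, fL.h1]
  have hinj : ∀ s : Sy F d, aeval f s = 0 → s = 0 := by
    intro s hs
    have h1 : (aeval f' : Sy F d →ₐ[F] Sy F d).comp (aeval f) = AlgHom.id F _ := by
      apply MvPolynomial.algHom_ext
      intro i
      rw [AlgHom.comp_apply, aeval_X, hf', AlgHom.id_apply]
    have h2 := DFunLike.congr_fun h1 s
    rw [AlgHom.comp_apply, hs, map_zero, AlgHom.id_apply] at h2
    exact h2.symm
  have hback : ∀ m, prH m = 0 → ∃ x, abL x = 0 ∧ Θ₁ x = m := by
    intro m hm
    have h1 : fL.pr (Φ.symm m) = 0 := by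
      apply hinj
      rw [← hprΦ, LinearEquiv.apply_symm_apply, hm]
    obtain ⟨x, hx⟩ := fL.h5 _ h1
    refine ⟨x, lf_inj abL x ?_, ?_⟩
    · rw [← fL.h1, hx, h1]
    · change Φ (fL.io x) = m
      rw [hx, LinearEquiv.apply_symm_apply]
  let A : Submodule F MH := (LinearMap.ker prH).restrictScalars F
  have hA : ∀ m, m ∈ A ↔ prH m = 0 := fun m => LinearMap.mem_ker
  have hAle : A ≤ LinearMap.range Θ₁ := by
    intro m hm
    obtain ⟨x, -, hx⟩ := hback m ((hA m).1 hm)
    exact ⟨x, hx⟩
  have : Module.Finite F A := Submodule.finiteDimensional_of_le hAle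
  let bs := Module.finBasis F A
  let v : Fin (Module.finrank F A) → MH := fun j => bs j
  have hv0 : ∀ j, prH (v j) = 0 := fun j => (hA _).1 (bs j).2
  have hv : ∀ m, prH m = 0 → ∃ c : Fin (Module.finrank F A) → F, m = ∑ j, c j • v j := by
    intro m hm
    refine ⟨fun j => bs.repr ⟨m, (hA m).2 hm⟩ j, ?_⟩
    have h1 := congrArg Subtype.val (bs.sum_repr ⟨m, (hA m).2 hm⟩)
    rw [Submodule.coe_sum] at h1
    exact h1.symm
  have hvi : ∀ c : Fin (Module.finrank F A) → F, ∑ j, c j • v j = 0 → c = 0 := by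
    intro c hc
    have h1 : LinearIndependent F v := bs.linearIndependent.map' A.subtype A.ker_subtype
    exact funext (Fintype.linearIndependent_iff.1 h1 c hc)
  have hu : ∀ j, ∃ x, abL x = 0 ∧ Θ₁ x = v j := fun j => hback _ (hv0 j)
  choose u hu0 hu1 using hu
  obtain ⟨z₁, hz₁, ht₁, hl₁, he₁⟩ := sol_one prt f abL nM nS p2 p3 p4 hF hg hO prH p1 hX hf0 v hv0
    hv hvi hlf Θ₁ hΘ₁ hpr₁
  obtain ⟨z, hz, ht, hl, hi⟩ := sol_zero prt f abL nM nS p2 p3 p4 hF hg hDT prH p1 v hv0 hv hvi u
    hu0 z₁ hz₁ ht₁ hl₁ (fun j => by rw [he₁, hu1])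
  let Θ : L →ₗ[F] MH :=
    { toFun := fun x => (z.1.eval 0)⁻¹ • ev (0 : F) (z.2 x)
      map_add' := fun x y => by rw [hz.1, map_add, smul_add]
      map_smul' := fun c x => by
        rw [hz.2.1, ev_F, smul_comm, RingHom.id_apply] }
  have hΘd : ∀ x, Θ x = (z.1.eval 0)⁻¹ • ev (0 : F) (z.2 x) := fun x => rfl
  have hΘ : ∀ x y, Θ ⁅x, y⁆ = aeval (lin f) (lf abL y) • Θ x - aeval (lin f) (lf abL x) • Θ y := by
    intro x y
    have h1 := ht x y
    rw [tt, sub_eq_zero] at h1
    rw [hΘd, hΘd, hΘd, h1, map_sub, ev_S, ev_S, gt_eval_zero, gt_eval_zero, smul_sub,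
      smul_comm (z.1.eval 0)⁻¹, smul_comm (z.1.eval 0)⁻¹ (aeval (lin f) (lf abL x))]
  have hprΘ : ∀ x, prH (Θ x) = aeval (lin f) (lf abL x) := by
    intro x
    rw [hΘd, LinearMap.map_smul_of_tower, pr_ev prH prt p1, hz.2.2, Polynomial.eval_mul,
      gt_eval_zero, Polynomial.eval_map_algebraMap, Polynomial.aeval_algebraMap_apply,
      Polynomial.coe_aeval_eq_eval, ← Algebra.smul_def, smul_smul, inv_mul_cancel₀ hl, one_smul]
  refine ⟨Θ, hΘ, hprΘ, fun x hx hΘx => ?_⟩
  obtain ⟨β, -, hβ⟩ := fL.h3 (Sy F d) MH (lin f) Θ hΘ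
  have h1 : prH (Θ₁ x) = 0 := by rw [hpr₁, lf_zero abL x hx, map_zero]
  obtain ⟨c, hc⟩ := hv _ h1
  have h2 : fL.io x = fL.io (∑ j, c j • u j) := by
    apply Φ.injective
    have h3 : Θ₁ x = Θ₁ (∑ j, c j • u j) := by
      rw [hc, map_sum]
      exact Finset.sum_congr rfl fun j _ => by rw [map_smul, hu1]
    exact h3
  have h3 : ∑ j, c j • Θ (u j) = 0 := by
    have h4 : Θ x = Θ (∑ j, c j • u j) := by rw [← hβ, ← hβ, h2]
    rw [hΘx, map_sum] at h4
    rw [h4]
    exact Finset.sum_congr rfl fun j _ => (map_smul Θ _ _).symm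
  have h4 : ∑ j, c j • ev (0 : F) (z.2 (u j)) = 0 := by
    have h5 : ∑ j, c j • Θ (u j) = (z.1.eval 0)⁻¹ • ∑ j, c j • ev (0 : F) (z.2 (u j)) := by
      rw [Finset.smul_sum]
      exact Finset.sum_congr rfl fun j _ => by rw [hΘd, smul_comm]
    rw [h5] at h3
    exact (smul_eq_zero.1 h3).resolve_left (inv_ne_zero hl)
  have h5 := hi c h4
  have h6 : Θ₁ x = 0 := by
    rw [hc, h5]
    simp
  exact Φ.injective (h6.trans (map_zero Φ).symm)

end Pool.Agent.U83.EM.G
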